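import Pool.Agent.H.MP_9fb79a_gt.A

set_option autoImplicit false

namespace Pool.Agent.Results.MP_dd3b7d_gt.Converse

open Set

/-- `F` is a Scott open subset of the lattice of open sets of `X`. -/
def ScottOpenFamily (X : Type) [TopologicalSpace X] (F : Set (Set X)) : Prop :=
  (∀ U ∈ F, IsOpen U) ∧ (∀ U V : Set X, U ∈ F → IsOpen V → U ⊆ V → V ∈ F) ∧
  (∀ D : Set (Set X), D.Nonempty → (∀ U ∈ D, IsOpen U) → DirectedOn (· ⊆ ·) D → ⋃₀ D ∈ F →
    ∃ U ∈ D, U ∈ F)

/-- co-consonance, in the second form given in the problem file. -/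
def CoConsonant (X : Type) [TopologicalSpace X] : Prop :=
  ∀ F : Set (Set X), ScottOpenFamily X F → ∀ U ∈ F, ∃ E : Set (Set X), E.Finite ∧
    (∀ A ∈ E, IsClosed A) ∧ (∀ A ∈ E, (U ∩ A).Nonempty) ∧
    ∀ V : Set X, IsOpen V → (∀ A ∈ E, (V ∩ A).Nonempty) → V ∈ F

/-- nonempty compact saturated subsets. -/
def Smyth (X : Type) [TopologicalSpace X] : Type :=
  {K : Set X // K.Nonempty ∧ IsCompact K ∧ K = ⋂₀ {U | IsOpen U ∧ K ⊆ U}}

/-- the upper Vietoris topology. -/
def upperVietoris (X : Type) [TopologicalSpace X] : TopologicalSpace (Smyth X) :=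
  TopologicalSpace.generateFrom {S | ∃ U : Set X, IsOpen U ∧ S = {K : Smyth X | K.1 ⊆ U}}

lemma iff_FC (X : Type) [TopologicalSpace X] : CoConsonant X ↔ H.MP_badb58_gt.FC X := by
  constructor
  · intro h F hF U hU
    obtain ⟨E, h1, -, h3, h4⟩ := h F hF U hU
    choose a ha using h3
    have := h1.to_subtype
    refine ⟨range fun A : E => a A.1 A.2, finite_range _, ?_, fun V hV h => h4 V hV fun A hA =>
      ⟨a A hA, h ⟨⟨A, hA⟩, rfl⟩, (ha A hA).2⟩⟩
    rintro _ ⟨A, rfl⟩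
    exact (ha A.1 A.2).1
  · intro h F hF U hU
    obtain ⟨E, h1, h2, h3⟩ := h F hF U hU
    refine ⟨(fun x => closure {x}) '' E, h1.image _, ?_, ?_, fun V hV h => h3 V hV fun x hx => ?_⟩
    · rintro _ ⟨x, -, rfl⟩; exact isClosed_closure
    · rintro _ ⟨x, hx, rfl⟩; exact ⟨x, h2 hx, subset_closure rfl⟩
    · have := h _ ⟨x, hx, rfl⟩
      rw [inter_comm, closure_inter_open_nonempty_iff hV, singleton_inter_nonempty] at this
      exact this

lemma FC_of_base {Y : Type} [TopologicalSpace Y]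
    (h : ∀ U : Set Y, IsOpen U → ∀ x ∈ U, ∃ y ∈ U, ∃ W, IsOpen W ∧ x ∈ W ∧
      ∀ V, IsOpen V → y ∈ V → W ⊆ V) : H.MP_badb58_gt.FC Y := by
  intro F hF U hU
  obtain ⟨_, ⟨E, hE, rfl⟩, h1⟩ := hF.2.2
    ((fun E : Set Y => interior {x | ∀ V, IsOpen V → E ⊆ V → x ∈ V}) '' {E | E.Finite ∧ E ⊆ U})
    ⟨_, ∅, ⟨finite_empty, empty_subset _⟩, rfl⟩ (by rintro _ ⟨E, -, rfl⟩; exact isOpen_interior)
    (by
      rintro _ ⟨A, hA, rfl⟩ _ ⟨B, hB, rfl⟩
      exact ⟨_, ⟨A ∪ B, ⟨hA.1.union hB.1, union_subset hA.2 hB.2⟩, rfl⟩,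
        interior_mono fun x hx V hV h => hx V hV (subset_union_left.trans h),
        interior_mono fun x hx V hV h => hx V hV (subset_union_right.trans h)⟩)
    (hF.2.1 U _ hU (isOpen_sUnion (by rintro _ ⟨E, -, rfl⟩; exact isOpen_interior)) (by
      intro x hx
      obtain ⟨y, hy, W, h1, h2, h3⟩ := h U (hF.1 U hU) x hx
      exact ⟨_, ⟨{y}, ⟨finite_singleton y, singleton_subset_iff.2 hy⟩, rfl⟩,
        mem_interior.2 ⟨W, fun z hz V hV h => h3 V hV (h rfl) hz, h1, h2⟩⟩))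
  exact ⟨E, hE.1, hE.2, fun V hV h => hF.2.1 _ _ h1 hV fun x hx => interior_subset hx V hV h⟩

theorem result : ∃ (X : Type) (_ : TopologicalSpace X), T0Space X ∧
    @CoConsonant (Smyth X) (upperVietoris X) ∧ ¬ CoConsonant X := by
  refine ⟨CofiniteTopology ℕ, inferInstance, inferInstance, ?_, fun h => ?_⟩
  · have key : ∀ (X : Type) [TopologicalSpace X] (p q : Set X → Prop), p = q →
        @H.MP_badb58_gt.FC {K // p K} (TopologicalSpace.generateFrom
          {S | ∃ U : Set X, IsOpen U ∧ S = {K : {K // p K} | K.1 ⊆ U}}) →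
        @H.MP_badb58_gt.FC {K // q K} (TopologicalSpace.generateFrom
          {S | ∃ U : Set X, IsOpen U ∧ S = {K : {K // q K} | K.1 ⊆ U}}) := by
      rintro X _ p q rfl h
      exact h
    letI := upperVietoris (CofiniteTopology ℕ)
    refine (iff_FC _).2 (key _ _ _ ?_ (FC_of_base (Y := H.MP_badb58_gt.PS (CofiniteTopology ℕ)) ?_))
    · funext K
      refine propext (and_congr_right fun _ => and_congr_right fun _ =>
        ⟨fun h => ?_, fun h x hx => ?_⟩)
      · exact subset_antisymm (fun x hx U hU => hU.2 hx) fun x hx =>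
          h x fun U h1 h2 => hx U ⟨h1, h2⟩
      · rw [h]
        exact fun U hU => hx U hU.1 hU.2
    · intro S hS K hK
      obtain ⟨U, h1, h2, h3⟩ := H.MP_9fb79a_gt.box_basis hS hK
      refine ⟨⟨U, K.2.1.mono h2, TopologicalSpace.NoetherianSpace.isCompact U,
        fun x hx => hx U h1 subset_rfl⟩, h3 _ subset_rfl, _, H.MP_badb58_gt.box_open h1, h2,
        fun V hV hU L hL => ?_⟩
      obtain ⟨W, -, h5, h6⟩ := H.MP_9fb79a_gt.box_basis hV hU
      exact h6 L (hL.trans h5)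
  · obtain ⟨E, h1, -, h2⟩ := (iff_FC _).1 h {univ} ⟨by rintro _ rfl; exact isOpen_univ,
      by rintro _ V rfl - h; exact univ_subset_iff.1 h, by
        intro D hD h1 h2 h3
        have := hD.to_subtype
        obtain ⟨U, hU⟩ := (isCompact_univ (X := CofiniteTopology ℕ)).elim_directed_cover
          (fun U : D => U.1) (fun U => h1 _ U.2) (by rw [← sUnion_eq_iUnion, h3])
          (directedOn_iff_directed.1 h2)
        exact ⟨U, U.2, univ_subset_iff.1 hU⟩⟩ univ rfl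
    obtain ⟨x, hx⟩ := h1.exists_notMem
    have h3 : ({x}ᶜ : Set (CofiniteTopology ℕ)) = univ :=
      h2 _ isOpen_compl_singleton (subset_compl_singleton_iff.2 hx)
    exact (h3 ▸ mem_univ x : x ∈ ({x}ᶜ : Set (CofiniteTopology ℕ))) rfl

end Pool.Agent.Results.MP_dd3b7d_gt.Converse
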